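import Pool.Agent.Helper14.TT.StU

/-!
# Project TT, module KerOS: dimension of the solution space with signs, and the two smallest levels
-/

set_option autoImplicit false

namespace Pool.Agent.Helper35.TT

open Pool.Agent.Helper14.TT Pool.Agent.Helper14.CV
open Pool.Agent.Helper76.TX (antiES antiOS antiFS Sg)

theorem hKerOS (h1 : RmapS) (h2 : DimOS) (h3 : DimFS) : KerOS := by
  intro η ε k hη hε hk
  have a1 := h2 η ε k hη hε hk
  have a2 := h3 η ε k hη hε hk
  rw [← h1 η ε k hη hε hk] at a2
  have a3 := LinearMap.finrank_range_add_finrank_ker ((Rq k).domRestrict (antiOS k η ε))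
  have a4 : Module.finrank ℂ ↥(LinearMap.range ((Rq k).domRestrict (antiOS k η ε)))
      = Module.finrank ℂ ↥((antiOS k η ε).map (Rq k)) := by
    rw [LinearMap.range_domRestrict]
  have a5 : Module.finrank ℂ ↥(LinearMap.ker ((Rq k).domRestrict (antiOS k η ε)))
      = Module.finrank ℂ ↥(antiOS k η ε ⊓ LinearMap.ker (Rq k)) := by
    have h6 : antiOS k η ε ⊓ LinearMap.ker (Rq k)
        = (LinearMap.ker ((Rq k).domRestrict (antiOS k η ε))).map (antiOS k η ε).subtype := by
      ext x
      simp [Submodule.mem_map, LinearMap.mem_ker, LinearMap.domRestrict_apply, and_comm]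
    rw [h6]
    exact (LinearEquiv.finrank_eq
      (Submodule.equivMapOfInjective _ (antiOS k η ε).injective_subtype _))
  have a6 : (Module.finrank ℂ ↥((antiOS k η ε).map (Rq k)) : ℤ) +
      (Module.finrank ℂ ↥(antiOS k η ε ⊓ LinearMap.ker (Rq k)) : ℤ) =
      (Module.finrank ℂ ↥(antiOS k η ε) : ℤ) := by
    rw [← a4, ← a5]
    exact_mod_cast a3
  linear_combination (-1 : ℤ) * a2 + 2 * a1 + 8 * a6

private theorem z2 (x : ZMod 2) : x = 0 ∨ x = 0 + 1 := by
  revert x; decide

theorem hDimE2 : DimE2 := by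
  intro F hF
  have h : ∀ x y : ZMod (2 ^ (2 - 1)), F (x + 2 ^ (2 - 2)) y = -F x y ∧
      F x (y + 2 ^ (2 - 2)) = -F x y ∧
      F (-y) (-x) = ((-1 : ℤ) : ℂ) * F x y ∧ F (-x) (-y) = ((1 : ℤ) : ℂ) * F x y := hF
  have h0 : F 0 0 = 0 := by
    have := (h 0 0).2.2.1
    rw [neg_zero] at this
    push_cast at this
    linear_combination (1 / 2 : ℂ) * this
  have hx : ∀ x : ZMod (2 ^ (2 - 1)), F x 0 = 0 := by
    intro x
    rcases z2 x with hx | hx
    · rw [hx]; exact h0
    · rw [hx]
      have := (h 0 0).1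
      rw [h0, neg_zero] at this
      exact this
  funext x y
  rcases z2 y with hy | hy
  · rw [hy]; exact hx x
  · rw [hy]
    have := (h x 0).2.1
    rw [hx x, neg_zero] at this
    exact this

theorem hDimO2 : DimO2 := by
  intro η F hF
  have h : ∀ x y : ZMod (2 ^ 1), F (x + 2 ^ (1 - 1)) y = -F x y ∧
      F x (y + 2 ^ (1 - 1)) = -F x y ∧
      F y x = (η : ℂ) * F x y ∧ F (-x) (-y) = ((-1 : ℤ) : ℂ) * F x y := hF
  have h0 : F 0 0 = 0 := by
    have := (h 0 0).2.2.2
    rw [neg_zero] at this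
    push_cast at this
    linear_combination (1 / 2 : ℂ) * this
  have hx : ∀ x : ZMod (2 ^ 1), F x 0 = 0 := by
    intro x
    rcases z2 x with hx | hx
    · rw [hx]; exact h0
    · rw [hx]
      have := (h 0 0).1
      rw [h0, neg_zero] at this
      exact this
  funext x y
  rcases z2 y with hy | hy
  · rw [hy]; exact hx x
  · rw [hy]
    have := (h x 0).2.1
    rw [hx x, neg_zero] at this
    exact this

end Pool.Agent.Helper35.TT
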